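import Pool.Agent.Lib.MP_d9c039_lc.PotFire
import Pool.Agent.Lib.MP_d9c039_lc.PotResp
import Pool.Agent.Lib.MP_d9c039_lc.PotBound
import Pool.Agent.Lib.MP_d9c039_lc.Enum
import Pool.Agent.Lib.MP_d9c039_lc.V2.Asm
import Pool.Agent.Lib.MP_d9c039_lc.V2.AddLink
import Pool.Agent.Lib.MP_d9c039_lc.V2.AddRest
import Pool.Agent.Lib.MP_d9c039_lc.V2.MkPot
import Pool.Agent.Lib.MP_d9c039_lc.V2.MkLink
import Pool.Agent.Lib.MP_d9c039_lc.V2.MkKle
import Pool.Agent.Lib.MP_d9c039_lc.V2.MkCln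
import Pool.Agent.Lib.MP_d9c039_lc.V2.MkPack
import Pool.Agent.Lib.MP_d9c039_lc.V2.MkMk
import Pool.Agent.Lib.MP_d9c039_lc.V2.Free1
import Pool.Agent.Lib.MP_d9c039_lc.V2.Free2
import Pool.Agent.Lib.MP_d9c039_lc.V2.Choose
import Pool.Agent.Lib.MP_d9c039_lc.V2.ARun
import Pool.Agent.Lib.MP_d9c039_lc.V2.DRun
import Pool.Agent.Lib.MP_d9c039_lc.V2.Board
import Pool.Agent.Lib.MP_d9c039_lc.V2.Plays
import Pool.Agent.Lib.MP_d9c039_lc.V2.PrimChk
import Pool.Agent.Lib.MP_d9c039_lc.V2.Search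
import Pool.Agent.Lib.MP_d9c039_lc.V2.Guess
import Pool.Agent.Lib.MP_d9c039_lc.V2.UM1
import Pool.Agent.Lib.MP_d9c039_lc.V2.UM2
import Pool.Agent.Lib.MP_d9c039_lc.V2.UM3
import Pool.Agent.Lib.MP_d9c039_lc.V2.UC
import Pool.Agent.Lib.MP_d9c039_lc.V2.TT
import Pool.Agent.Lib.MP_d9c039_lc.V2.Res
import Pool.Agent.Lib.MP_d9c039_lc.V2.CompT
import Pool.Agent.Lib.MP_d9c039_lc.V2.Rk1
import Pool.Agent.Lib.MP_d9c039_lc.V3.Fin

set_option autoImplicit false

namespace Pool.Agent.Results.MP_d9c039_lc.BoundedOnAverage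

/-- `tower 0 = 1`, `tower (k+1) = 2 ^ tower k` -/
def tower : ℕ → ℕ
  | 0 => 1
  | k + 1 => 2 ^ tower k

private theorem tower_eq (k : ℕ) : Pool.Agent.D9.tower k = tower k := by
  induction k with
  | zero => rfl
  | succ k ih =>
    change 2 ^ Pool.Agent.D9.tower k = 2 ^ tower k
    rw [ih]

/-- There is a constant `c` such that every c.e. set `A` has a c.e. set `D` of even numbers such
that:

* for all `n`, `A` cut at `n` is among `b n + 1` guesses computed by one partial computable function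
  from `D` cut at `n`, where `b n ≤ c (k+1)^2` for all `n ≤ tower k`, the average of `b n` over
  `n < N` is at most `c` for all `N`, and for all `t`, `N` at most `c N / 2 ^ t` numbers `n < N`
  have `b n > c (t+1)^3`;
* for all `n`, `D` cut at `n` is among four guesses computed by one partial computable function from
  `A` cut at `n`. -/
theorem result :
    ∃ c : ℕ, ∀ A : Set ℕ, REPred (fun n : ℕ => n ∈ A) →
      ∃ D : Set ℕ, REPred (fun n : ℕ => n ∈ D) ∧ (∀ n ∈ D, Even n) ∧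
        (∃ b : ℕ → ℕ,
          (∀ k n : ℕ, n ≤ tower k → b n ≤ c * (k + 1) ^ 2) ∧
          (∀ N : ℕ, ∑ n ∈ Finset.range N, b n ≤ c * N) ∧
          (∀ t N : ℕ, 2 ^ t * ((Finset.range N).filter (fun n => c * (t + 1) ^ 3 < b n)).card
            ≤ c * N) ∧
          ∃ φ : List Bool × ℕ →. List Bool, Partrec φ ∧ ∀ n : ℕ, ∀ τ : List Bool,
            τ.length = n → (∀ i < n, (τ.getD i false = true ↔ i ∈ D)) →
            ∃ j ≤ b n, ∃ σ ∈ φ (τ, j), σ.length = n ∧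
              ∀ i < n, (σ.getD i false = true ↔ i ∈ A)) ∧
        (∃ ψ : List Bool × ℕ →. List Bool, Partrec ψ ∧ ∀ n : ℕ, ∀ τ : List Bool,
          τ.length = n → (∀ i < n, (τ.getD i false = true ↔ i ∈ A)) →
          ∃ j ≤ 3, ∃ σ ∈ ψ (τ, j), σ.length = n ∧
            ∀ i < n, (σ.getD i false = true ↔ i ∈ D)) := by
  have hL := Pool.Agent.D9b.tAddLink
  have hA := Pool.Agent.D9b.tAddRest Pool.Agent.D9.potAdd hL
  have hR := Pool.Agent.D9b.tRI hA
    (Pool.Agent.D9b.tMkPot Pool.Agent.D9.potFire Pool.Agent.D9.potResp) Pool.Agent.D9b.tMkLink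
    Pool.Agent.D9b.tMkKle Pool.Agent.D9b.tMkCln Pool.Agent.D9b.tMkPack Pool.Agent.D9b.tMkMk
  have hC := Pool.Agent.D9b.tCh hA (Pool.Agent.D9b.tChoose Pool.Agent.D9b.tFree1
    (Pool.Agent.D9b.tFree2 Pool.Agent.D9.potBound))
  have hB := Pool.Agent.D9b.tBoard hR hC Pool.Agent.D9b.tARun (Pool.Agent.D9b.tDRun hR hA)
  rw [← funext tower_eq]
  exact Pool.Agent.D9c.fin hB Pool.Agent.D9b.tPlays
    (Pool.Agent.D9b.tSearch Pool.Agent.D9b.tPrimChk) Pool.Agent.D9b.tGuess Pool.Agent.D9.enumB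
    Pool.Agent.D9b.tUM1 Pool.Agent.D9b.tUM2 Pool.Agent.D9b.tUM3 Pool.Agent.D9b.tUC
    Pool.Agent.D9b.tTT (Pool.Agent.D9b.tP8 Pool.Agent.D9b.tTT Pool.Agent.D9b.tRes)
    Pool.Agent.D9b.tCompT (Pool.Agent.D9b.tRk1 Pool.Agent.D9b.tTT)

end Pool.Agent.Results.MP_d9c039_lc.BoundedOnAverage
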