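import Pool.Agent.Lib.MP_d9c039_lc.PotFire
import Pool.Agent.Lib.MP_d9c039_lc.PotResp
import Pool.Agent.Lib.MP_d9c039_lc.PotBound
import Pool.Agent.Lib.MP_d9c039_lc.Enum
import Pool.Agent.Lib.MP_d9c039_lc.V2.Asm
import Pool.Agent.Lib.MP_d9c039_lc.V2.AddLink
import Pool.Agent.Lib.MP_d9c039_lc.V2.AddRest
import Pool.Agent.Lib.MP_d9c039_lc.V2.MkPot
import Pool.Agent.Lib.MP_d9c039_lc.V2.MkLink
import Pool.Agent.Lib.MP_d9c039_lc.V2.MkKle
import Pool.Agent.Lib.MP_d9c039_lc.V2.MkCln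
import Pool.Agent.Lib.MP_d9c039_lc.V2.MkPack
import Pool.Agent.Lib.MP_d9c039_lc.V2.MkMk
import Pool.Agent.Lib.MP_d9c039_lc.V2.Free1
import Pool.Agent.Lib.MP_d9c039_lc.V2.Free2
import Pool.Agent.Lib.MP_d9c039_lc.V2.Choose
import Pool.Agent.Lib.MP_d9c039_lc.V2.ARun
import Pool.Agent.Lib.MP_d9c039_lc.V2.DRun
import Pool.Agent.Lib.MP_d9c039_lc.V2.Board
import Pool.Agent.Lib.MP_d9c039_lc.V2.Plays
import Pool.Agent.Lib.MP_d9c039_lc.V2.PrimChk
import Pool.Agent.Lib.MP_d9c039_lc.V2.Search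
import Pool.Agent.Lib.MP_d9c039_lc.V2.Guess
import Pool.Agent.Lib.MP_d9c039_lc.V2.UM1
import Pool.Agent.Lib.MP_d9c039_lc.V2.UM2
import Pool.Agent.Lib.MP_d9c039_lc.V2.UM3
import Pool.Agent.Lib.MP_d9c039_lc.V2.UC
import Pool.Agent.Lib.MP_d9c039_lc.V2.TT
import Pool.Agent.Lib.MP_d9c039_lc.V2.Res
import Pool.Agent.Lib.MP_d9c039_lc.V2.P2
import Pool.Agent.Lib.MP_d9c039_lc.V2.CompT
import Pool.Agent.Lib.MP_d9c039_lc.V2.S2C
import Pool.Agent.Lib.MP_d9c039_lc.V2.Gap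

set_option autoImplicit false

namespace Pool.Agent.Results.MP_d9c039_lc.IteratedLogLengths

/-- There are a function `c` and uniformly decidable sets `S k` of lengths, `S k` having for all
large `n` an element between `n` and `n + log^(k) n` (`log^(k)` = `k`-fold iterate of the integer
binary logarithm), such that every c.e. set `A` has a c.e. set `D` of even numbers with: for all `k`
and all lengths `n ∈ S k`, `A` cut at `n` is among `c k + 1` guesses computed by one function from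
`D` cut at `n`; for all `n`, `D` cut at `n` is among three guesses computed by one function from `A`
cut at `n`. -/
theorem result :
    ∃ (c : ℕ → ℕ) (S : ℕ → Set ℕ), ComputablePred (fun t : ℕ × ℕ => t.2 ∈ S t.1) ∧
      (∀ k : ℕ, ∃ N : ℕ, ∀ n ≥ N, ∃ m ∈ S k, n ≤ m ∧ m ≤ n + (Nat.log 2)^[k] n) ∧
      ∀ A : Set ℕ, REPred (fun n : ℕ => n ∈ A) →
      ∃ D : Set ℕ, REPred (fun n : ℕ => n ∈ D) ∧ (∀ n ∈ D, Even n) ∧
        (∃ φ : List Bool × ℕ →. List Bool, Partrec φ ∧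
          ∀ k : ℕ, ∀ n ∈ S k, ∀ τ : List Bool,
            τ.length = n → (∀ i < n, (τ.getD i false = true ↔ i ∈ D)) →
            ∃ j ≤ c k, ∃ σ ∈ φ (τ, j), σ.length = n ∧
              ∀ i < n, (σ.getD i false = true ↔ i ∈ A)) ∧
        (∃ ψ : List Bool × ℕ →. List Bool, Partrec ψ ∧ ∀ n : ℕ, ∀ τ : List Bool,
          τ.length = n → (∀ i < n, (τ.getD i false = true ↔ i ∈ A)) →
          ∃ j ≤ 2, ∃ σ ∈ ψ (τ, j), σ.length = n ∧
            ∀ i < n, (σ.getD i false = true ↔ i ∈ D)) := by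
  have hL := Pool.Agent.D9b.tAddLink
  have hA := Pool.Agent.D9b.tAddRest Pool.Agent.D9.potAdd hL
  have hR := Pool.Agent.D9b.tRI hA
    (Pool.Agent.D9b.tMkPot Pool.Agent.D9.potFire Pool.Agent.D9.potResp) Pool.Agent.D9b.tMkLink
    Pool.Agent.D9b.tMkKle Pool.Agent.D9b.tMkCln Pool.Agent.D9b.tMkPack Pool.Agent.D9b.tMkMk
  have hC := Pool.Agent.D9b.tCh hA (Pool.Agent.D9b.tChoose Pool.Agent.D9b.tFree1
    (Pool.Agent.D9b.tFree2 Pool.Agent.D9.potBound))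
  have hB := Pool.Agent.D9b.tBoard hR hC Pool.Agent.D9b.tARun (Pool.Agent.D9b.tDRun hR hA)
  have hF := Pool.Agent.D9b.tFam Pool.Agent.D9b.tPlays
    (Pool.Agent.D9b.tSearch Pool.Agent.D9b.tPrimChk) Pool.Agent.D9b.tGuess Pool.Agent.D9.enumB
    Pool.Agent.D9b.tUM1 Pool.Agent.D9b.tUM2 Pool.Agent.D9b.tUM3 Pool.Agent.D9b.tUC
  exact Pool.Agent.D9b.tFin2 hB hF Pool.Agent.D9b.tTT
    (Pool.Agent.D9b.tP2 Pool.Agent.D9b.tTT Pool.Agent.D9b.tRes) Pool.Agent.D9b.tCompT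
    (Pool.Agent.D9b.tS2C Pool.Agent.D9b.tTT) (Pool.Agent.D9b.tGap Pool.Agent.D9b.tTT)

end Pool.Agent.Results.MP_d9c039_lc.IteratedLogLengths
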