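import Pool.Agent.Lib.MP_d9c039_lc.Assemble
import Pool.Agent.Lib.MP_d9c039_lc.Board
import Pool.Agent.Lib.MP_d9c039_lc.StepPot
import Pool.Agent.Lib.MP_d9c039_lc.StepRest
import Pool.Agent.Lib.MP_d9c039_lc.PotResp
import Pool.Agent.Lib.MP_d9c039_lc.PotBound
import Pool.Agent.Lib.MP_d9c039_lc.Cnt
import Pool.Agent.Lib.MP_d9c039_lc.Load
import Pool.Agent.Lib.MP_d9c039_lc.Choose
import Pool.Agent.Lib.MP_d9c039_lc.ARun
import Pool.Agent.Lib.MP_d9c039_lc.DRun
import Pool.Agent.Lib.MP_d9c039_lc.Params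
import Pool.Agent.Lib.MP_d9c039_lc.Plays
import Pool.Agent.Lib.MP_d9c039_lc.PrimChk
import Pool.Agent.Lib.MP_d9c039_lc.Search
import Pool.Agent.Lib.MP_d9c039_lc.Guess
import Pool.Agent.Lib.MP_d9c039_lc.Enum
import Pool.Agent.Lib.MP_d9c039_lc.UnionC
import Pool.Agent.Lib.MP_d9c039_lc.UnionM

set_option autoImplicit false

namespace Pool.Agent.Results.MP_d9c039_lc.LogStarGuesses

open Pool.Agent.D9 (tower)

/-- There is a constant `c` such that every c.e. set `A` has a c.e. set `D` of even numbers such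
that, for all `n ≤ tower k`, `A` cut at `n` is among `c (k+1)^4 + 1` guesses computed by one partial
computable function from `D` cut at `n`, and conversely. (`tower 0 = 1`,
`tower (k+1) = 2 ^ tower k`.) -/
theorem result :
    ∃ c : ℕ, ∀ A : Set ℕ, REPred (fun n : ℕ => n ∈ A) →
      ∃ D : Set ℕ, REPred (fun n : ℕ => n ∈ D) ∧ (∀ n ∈ D, Even n) ∧
        (∃ φ : List Bool × ℕ →. List Bool, Partrec φ ∧
          ∀ k n : ℕ, n ≤ tower k → ∀ τ : List Bool,
            τ.length = n → (∀ i < n, (τ.getD i false = true ↔ i ∈ D)) →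
            ∃ j ≤ c * (k + 1) ^ 4, ∃ σ ∈ φ (τ, j), σ.length = n ∧
              ∀ i < n, (σ.getD i false = true ↔ i ∈ A)) ∧
        (∃ ψ : List Bool × ℕ →. List Bool, Partrec ψ ∧
          ∀ k n : ℕ, n ≤ tower k → ∀ τ : List Bool,
            τ.length = n → (∀ i < n, (τ.getD i false = true ↔ i ∈ A)) →
            ∃ j ≤ c * (k + 1) ^ 4, ∃ σ ∈ ψ (τ, j), σ.length = n ∧
              ∀ i < n, (σ.getD i false = true ↔ i ∈ D)) := by
  have hR := Pool.Agent.D9.reachInv
    (Pool.Agent.D9.stepPot Pool.Agent.D9.potAdd Pool.Agent.D9.potFire Pool.Agent.D9.potResp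
      Pool.Agent.D9.cntB)
    Pool.Agent.D9.stepLink Pool.Agent.D9.stepK Pool.Agent.D9.stepViol Pool.Agent.D9.stepMk
  have hC := Pool.Agent.D9.chooseB (Pool.Agent.D9.loadB Pool.Agent.D9.potBound
    Pool.Agent.D9.cntB)
  have hB := Pool.Agent.D9.boardB hR hC (Pool.Agent.D9.aRunB hR Pool.Agent.D9.cntB)
    (Pool.Agent.D9.dRunB hR)
  exact Pool.Agent.D9.finalB (Pool.Agent.D9.boards hB Pool.Agent.D9.paramsB)
    Pool.Agent.D9.paramsB Pool.Agent.D9.playsB
    (Pool.Agent.D9.searchB Pool.Agent.D9.primChkB) Pool.Agent.D9.guessB Pool.Agent.D9.enumB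
    Pool.Agent.D9.unionC Pool.Agent.D9.unionM

end Pool.Agent.Results.MP_d9c039_lc.LogStarGuesses
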